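import Pool.Agent.MP_856573_co.H74.Bas

/-! Affine functions with the nesting inequalities and the collinearity equations. -/

namespace Pool.Agent.MP_856573_co.H74

open Set

namespace Gor

/-- The theorem of the alternative for a subspace and the open orthant. -/
theorem gordan {ι : Type} [Fintype ι] (S : Submodule ℝ (ι → ℝ))
    (h : ∀ x ∈ S, ¬ ∀ i, 0 < x i) :
    ∃ lam : ι → ℝ, (∀ i, 0 ≤ lam i) ∧ (∃ i, lam i ≠ 0) ∧ ∀ x ∈ S, ∑ i, lam i * x i = 0 := by
  classical
  have hc : Convex ℝ {x : ι → ℝ | ∀ i, 0 < x i} := by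
    intro x hx y hy a b ha hb hab i
    have h1 := hx i
    have h2 := hy i
    simp only [Pi.add_apply, Pi.smul_apply, smul_eq_mul]
    rcases ha.eq_or_lt with rfl | ha
    · have : b = 1 := by linarith
      subst this
      simpa using h2
    · nlinarith [mul_pos ha h1, mul_nonneg hb h2.le]
  have ho : IsOpen {x : ι → ℝ | ∀ i, 0 < x i} := by
    have : {x : ι → ℝ | ∀ i, 0 < x i} = ⋂ i, {x : ι → ℝ | 0 < x i} := by
      ext x
      simp
    rw [this]
    exact isOpen_iInter_of_finite fun i => isOpen_lt continuous_const (continuous_apply i)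
  have hd : Disjoint {x : ι → ℝ | ∀ i, 0 < x i} (S : Set (ι → ℝ)) := by
    rw [Set.disjoint_left]
    intro x hx hS
    exact h x hS hx
  obtain ⟨f, u, h1, h2⟩ := geometric_hahn_banach_open hc ho S.convex hd
  have hu : u ≤ 0 := by simpa using h2 0 S.zero_mem
  have hz : ∀ x ∈ S, f x = 0 := by
    intro x hx
    by_contra hne
    have := h2 (((u - 1) / f x) • x) (S.smul_mem _ hx)
    rw [map_smul, smul_eq_mul, div_mul_cancel₀ _ hne] at this
    linarith
  have hf : ∀ x : ι → ℝ, f x = ∑ i, x i * f (Pi.single i 1) := by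
    intro x
    conv_lhs => rw [← Finset.univ_sum_single x]
    rw [map_sum]
    refine Finset.sum_congr rfl fun i _ => ?_
    have : (Pi.single i (x i) : ι → ℝ) = x i • (Pi.single i 1 : ι → ℝ) := by
      ext j
      by_cases hj : j = i
      · subst hj
        simp
      · simp [hj]
    rw [this, map_smul, smul_eq_mul]
  have h11 : f 1 < 0 := lt_of_lt_of_le (h1 1 fun i => by simp) hu
  refine ⟨fun i => -f (Pi.single i 1), fun i => ?_, ?_, fun x hx => ?_⟩
  · by_contra hneg
    have hp : 0 < f (Pi.single i 1) := by linarith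
    have hk : 0 ≤ -f 1 / f (Pi.single i 1) := div_nonneg (by linarith) hp.le
    have := h1 (1 + (-f 1 / f (Pi.single i 1)) • (Pi.single i 1 : ι → ℝ)) (fun j => by
      by_cases hj : j = i
      · subst hj
        simp only [Pi.add_apply, Pi.one_apply, Pi.smul_apply, Pi.single_eq_same, smul_eq_mul]
        linarith
      · simp [hj])
    rw [map_add, map_smul, smul_eq_mul, div_mul_cancel₀ _ hp.ne'] at this
    linarith
  · by_contra hall
    push Not at hall
    rw [hf 1] at h11
    have : ∑ i, (1 : ι → ℝ) i * f (Pi.single i 1) = 0 :=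
      Finset.sum_eq_zero fun i _ => by
        have := hall i
        rw [neg_eq_zero] at this
        simp [this]
    linarith
  · have := hz x hx
    rw [hf x] at this
    have h3 : ∑ i, -f (Pi.single i 1) * x i = -∑ i, x i * f (Pi.single i 1) := by
      rw [← Finset.sum_neg_distrib]
      exact Finset.sum_congr rfl fun i _ => by ring
    rw [h3, this, neg_zero]

/-! ### Step functions on a line -/

section Step

variable {O : Type} [Fintype O] (X : ℕ → ℝ) (P : O → ℕ) (nu : O → ℝ)

/-- The total weight of the points up to `i`. -/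
noncomputable def sf (i : ℕ) : ℝ := ∑ w, if P w ≤ i then nu w else 0

theorem abel_left (L R : ℕ) (h : L ≤ R) :
    ∑ w, (if L < P w ∧ P w < R then nu w * (X R - X (P w)) else 0) =
      ∑ i ∈ Finset.Ico L R, (sf P nu i - sf P nu L) * (X (i + 1) - X i) := by
  induction R, h using Nat.le_induction with
  | base =>
    rw [Finset.Ico_self, Finset.sum_empty]
    exact Finset.sum_eq_zero fun w _ => if_neg (by omega)
  | succ R hR ih =>
    rw [Finset.sum_Ico_succ_top hR, ← ih, sf, sf, ← Finset.sum_sub_distrib, Finset.sum_mul,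
      ← Finset.sum_add_distrib]
    refine Finset.sum_congr rfl fun w _ => ?_
    by_cases h1 : L < P w
    · by_cases h2 : P w < R
      · rw [if_pos ⟨h1, by omega⟩, if_pos ⟨h1, h2⟩, if_pos (by omega), if_neg (by omega)]
        ring
      · by_cases h3 : P w = R
        · rw [if_pos ⟨h1, by omega⟩, if_neg (by omega), if_pos (by omega), if_neg (by omega), h3]
          ring
        · rw [if_neg (by omega), if_neg (by omega), if_neg (by omega), if_neg (by omega)]
          ring
    · rw [if_neg (by omega), if_neg (by omega), if_pos (by omega), if_pos (by omega)]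
      ring

theorem abel_right (L R : ℕ) (h : L ≤ R) :
    ∑ w, (if L < P w ∧ P w < R + 1 then nu w * (X (P w) - X L) else 0) =
      ∑ i ∈ Finset.Ico L (R + 1), (sf P nu R - sf P nu i) * (X (i + 1) - X i) := by
  have h1 := abel_left X P nu L (R + 1) (by omega)
  have h2 : ∑ i ∈ Finset.Ico L (R + 1), (X (i + 1) - X i) = X (R + 1) - X L :=
    Finset.sum_Ico_sub X (by omega)
  have h3 : ∑ i ∈ Finset.Ico L (R + 1), (sf P nu R - sf P nu i) * (X (i + 1) - X i) =
      (sf P nu R - sf P nu L) * (X (R + 1) - X L) -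
        ∑ i ∈ Finset.Ico L (R + 1), (sf P nu i - sf P nu L) * (X (i + 1) - X i) := by
    rw [← h2, Finset.mul_sum, ← Finset.sum_sub_distrib]
    exact Finset.sum_congr rfl fun i _ => by ring
  rw [h3, ← h1, sf, sf, ← Finset.sum_sub_distrib, Finset.sum_mul, ← Finset.sum_sub_distrib]
  refine Finset.sum_congr rfl fun w _ => ?_
  split_ifs <;> first | (exfalso; omega) | ring

variable {X}

theorem flat (hX : StrictMono X) (s : ℕ → ℝ) (M : ℝ) (L R : ℕ)
    (hle : ∀ i, L ≤ i → i < R → s i ≤ M)
    (h : 0 ≤ ∑ i ∈ Finset.Ico L R, (s i - M) * (X (i + 1) - X i)) :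
    ∀ i, L ≤ i → i < R → s i = M := by
  have hn : ∀ i ∈ Finset.Ico L R, (s i - M) * (X (i + 1) - X i) ≤ 0 := by
    intro i hi
    rw [Finset.mem_Ico] at hi
    have := hX (Nat.lt_succ_self i)
    exact mul_nonpos_of_nonpos_of_nonneg (by linarith [hle i hi.1 hi.2]) (by linarith)
  have h0 := (Finset.sum_eq_zero_iff_of_nonpos hn).1 (le_antisymm (Finset.sum_nonpos hn) h)
  intro i h1 h2
  have h3 := h0 i (Finset.mem_Ico.2 ⟨h1, h2⟩)
  have h4 := hX (Nat.lt_succ_self i)
  rcases mul_eq_zero.1 h3 with h5 | h5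
  · linarith
  · exact absurd h5 (by simp only [Nat.succ_eq_add_one] at h4; linarith)

theorem jump (i : ℕ) (h : sf P nu (i + 1) ≠ sf P nu i) : ∃ w, P w = i + 1 ∧ nu w ≠ 0 := by
  by_contra hc
  push Not at hc
  apply h
  refine Finset.sum_congr rfl fun w _ => ?_
  by_cases h1 : P w ≤ i
  · rw [if_pos h1, if_pos (by omega)]
  · by_cases h2 : P w = i + 1
    · rw [if_neg h1, if_pos (by omega), hc w h2]
    · rw [if_neg h1, if_neg (by omega)]

end Step

/-! ### The dual system -/

section Dual

variable {O : Type} [Fintype O] {N : ℕ} {sd : O → Bool} {At : O → Finset ℕ}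
  {tie : O → Option (O × ℕ)} {rk L R : O → ℕ} {par : O → Option O}

omit [Fintype O] in
theorem ext_mem (fo : Fo N sd At rk L R par) {y : O} {a : ℕ} (h : Ext At L R y a) :
    L y ≤ a ∧ a ≤ R y := by
  have := (fo.lr y).1
  rcases h with h | h | h
  · exact fo.mem y a h
  · omega
  · omega

/-- The objects whose wedge lies in the wedge of `z`. -/
def Sub (sd : O → Bool) (rk L R : O → ℕ) (z y : O) : Prop :=
  sd y = sd z ∧ rk z ≤ rk y ∧ L z ≤ L y ∧ R y ≤ R z

omit [Fintype O] in
theorem sub_par (fo : Fo N sd At rk L R par) (z c : O) :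
    (∃ y, par c = some y ∧ Sub sd rk L R z y) ↔ (Sub sd rk L R z c ∧ c ≠ z) := by
  constructor
  · rintro ⟨y, hy, h1, h2, h3, h4⟩
    obtain ⟨a1, a2, a3, a4, -⟩ := fo.some c y hy
    have b1 := ext_mem fo a3
    have b2 := ext_mem fo a4
    refine ⟨⟨a1.symm.trans h1, by omega, by omega, by omega⟩, ?_⟩
    rintro rfl
    omega
  · rintro ⟨⟨h1, h2, h3, h4⟩, hne⟩
    have hlt : rk z < rk c := lt_of_le_of_ne h2 fun h => hne (fo.inj h).symm
    cases hp : par c with
    | none =>
      have := (fo.none c hp).2.2 z h1.symm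
      omega
    | some y =>
      obtain ⟨a1, a2, a3, a4, a5⟩ := fo.some c y hp
      have b1 := ext_mem fo a3
      have b2 := ext_mem fo a4
      have b3 := a5 z h1.symm hlt h3 h4
      have b4 := (fo.lr c).1
      refine ⟨y, rfl, a1.trans h1, b3, ?_⟩
      rcases b3.eq_or_lt with b3 | b3
      · rw [fo.inj b3]
        exact ⟨le_rfl, le_rfl⟩
      · have c1 := fo.gap y z (h1.symm.trans a1.symm) b3 (L z) (Or.inr (Or.inl rfl))
        have c2 := fo.gap y z (h1.symm.trans a1.symm) b3 (R z) (Or.inr (Or.inr rfl))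
        omega

omit [Fintype O] in
/-- A tied point lies strictly inside the wedge of its owners. -/
theorem own_in (wk : Wk N sd At tie) (fo : Fo N sd At rk L R par) {w h : O} {p : ℕ}
    (ht : tie w = some (h, p)) {y : O} (hy : p ∈ At y) : L y < p ∧ p < R y := by
  obtain ⟨t1, -, -, -, t5⟩ := wk.tie w h p ht
  have key : ∀ o', sd o' = sd y → rk o' < rk y → p ∈ At o' → False := by
    intro o' h1 h2 h3
    rcases t5 y hy with rfl | rfl <;> rcases t5 o' h3 with rfl | rfl
    · omega
    · exact t1 h1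
    · exact t1 h1.symm
    · omega
  have b1 := fo.mem y p hy
  have b2 := wk.rng y p hy
  constructor
  · rcases fo.l y with h0 | ⟨o', h1, h2, h3⟩
    · omega
    · rcases b1.1.eq_or_lt with h4 | h4
      · exact (key o' h1 h2 (h4 ▸ h3)).elim
      · exact h4
  · rcases fo.r y with h0 | ⟨o', h1, h2, h3⟩
    · omega
    · rcases b1.2.eq_or_lt with h4 | h4
      · exact (key o' h1 h2 (h4 ▸ h3)).elim
      · exact h4

omit [Fintype O] in
theorem own_sub (wk : Wk N sd At tie) (fo : Fo N sd At rk L R par) {w h : O} {p : ℕ}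
    (ht : tie w = some (h, p)) {y z : O} (hy : p ∈ At y) (hs : sd y = sd z) :
    Sub sd rk L R z y ↔ (L z < p ∧ p < R z) := by
  have b1 := own_in wk fo ht hy
  constructor
  · rintro ⟨-, -, h1, h2⟩
    omega
  · rintro ⟨h1, h2⟩
    rcases lt_trichotomy (rk y) (rk z) with h3 | h3 | h3
    · have := fo.gap z y hs h3 p (Or.inl hy)
      omega
    · rw [fo.inj h3]
      exact ⟨rfl, le_rfl, le_rfl, le_rfl⟩
    · have c1 := fo.gap y z hs.symm h3 (L z) (Or.inr (Or.inl rfl))
      have c2 := fo.gap y z hs.symm h3 (R z) (Or.inr (Or.inr rfl))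
      exact ⟨hs, h3.le, by omega, by omega⟩

omit [Fintype O] in
/-- On each side a tied point has an owner. -/
theorem owner (wk : Wk N sd At tie) {w h : O} {p : ℕ} (ht : tie w = some (h, p)) (b : Bool) :
    ∃ y, (y = w ∨ y = h) ∧ sd y = b ∧ p ∈ At y ∧ ∀ y', (y' = w ∨ y' = h) → sd y' = b → y' = y := by
  obtain ⟨t1, t2, t3, -, -⟩ := wk.tie w h p ht
  by_cases hb : sd w = b
  · refine ⟨w, Or.inl rfl, hb, t2, ?_⟩
    rintro y' (rfl | rfl) h2
    · rfl
    · exact absurd (h2.trans hb.symm) t1
  · have hb' : sd h = b := by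
      revert t1 hb
      cases sd h <;> cases sd w <;> cases b <;> simp
    refine ⟨h, Or.inr rfl, hb', t3, ?_⟩
    rintro y' (rfl | rfl) h2
    · exact absurd h2 hb
    · rfl

omit [Fintype O] in
/-- Each side that has an object has a root. -/
theorem root (fo : Fo N sd At rk L R par) (y : O) : ∃ z, L z = 0 ∧ R z = N := by
  induction hn : rk y using Nat.strong_induction_on generalizing y with
  | _ n ih =>
    cases hp : par y with
    | none => exact ⟨y, (fo.none y hp).1, (fo.none y hp).2.1⟩
    | some z => exact ih (rk z) (hn ▸ (fo.some y z hp).2.1) z rfl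

/-- The weights of the tied points vanish. -/
theorem vanish (wk : Wk N sd At tie) (fo : Fo N sd At rk L R par) {X : ℕ → ℝ}
    (hX : StrictMono X) (P : O → ℕ) (nu : O → ℝ)
    (hP : ∀ w, nu w ≠ 0 → ∃ h, tie w = some (h, P w))
    (hl : ∀ z, 0 ≤ ∑ w, if L z < P w ∧ P w < R z then nu w * (X (R z) - X (P w)) else 0)
    (hr : ∀ z, ∑ w, (if L z < P w ∧ P w < R z then nu w * (X (P w) - X (L z)) else 0) ≤ 0) :
    ∀ w, nu w = 0 := by
  classical
  by_contra hc
  push Not at hc
  obtain ⟨w0, hw0⟩ := hc
  obtain ⟨h0, ht0⟩ := hP w0 hw0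
  have hr0 := wk.rng w0 _ (wk.tie w0 h0 _ ht0).2.1
  obtain ⟨m, hm, hmax⟩ := (Finset.range N).exists_max_image (sf P nu) ⟨0, by simp; omega⟩
  rw [Finset.mem_range] at hm
  have hle : ∀ i < N, sf P nu i ≤ sf P nu m := fun i hi => hmax i (Finset.mem_range.2 hi)
  have fl : ∀ z, sf P nu (L z) = sf P nu m → ∀ i, L z ≤ i → i < R z → sf P nu i = sf P nu m := by
    intro z hz
    have b := fo.lr z
    refine flat hX _ _ _ _ (fun i _ h2 => hle i (by omega)) ?_
    have := hl z
    rwa [abel_left X P nu _ _ b.1.le, hz] at this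
  have fr : ∀ z, sf P nu (R z - 1) = sf P nu m → ∀ i, L z ≤ i → i < R z →
      sf P nu i = sf P nu m := by
    intro z hz
    have b := fo.lr z
    refine flat hX _ _ _ _ (fun i _ h2 => hle i (by omega)) ?_
    have h1 := hr z
    have h2 := abel_right X P nu (L z) (R z - 1) (by omega)
    rw [show R z - 1 + 1 = R z by omega, hz] at h2
    rw [h2] at h1
    have h3 : ∑ i ∈ Finset.Ico (L z) (R z), (sf P nu i - sf P nu m) * (X (i + 1) - X i) =
        -∑ i ∈ Finset.Ico (L z) (R z), (sf P nu m - sf P nu i) * (X (i + 1) - X i) := by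
      rw [← Finset.sum_neg_distrib]
      exact Finset.sum_congr rfl fun i _ => by ring
    rw [h3]
    linarith
  -- the step function is not constant
  have nconst : ¬ ∀ i < N, sf P nu i = sf P nu m := by
    intro hall
    obtain ⟨k, hk⟩ : ∃ k, P w0 = k + 1 := ⟨P w0 - 1, by omega⟩
    have e1 := hall k (by omega)
    have e2 := hall (k + 1) (by omega)
    have e3 : sf P nu (k + 1) - sf P nu k = nu w0 := by
      rw [sf, sf, ← Finset.sum_sub_distrib, Finset.sum_eq_single w0]
      · rw [if_pos (by omega), if_neg (by omega), sub_zero]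
      · intro w _ hw
        by_cases hn : nu w = 0
        · simp [hn]
        · obtain ⟨h, ht⟩ := hP w hn
          have hne : P w ≠ P w0 := by
            intro he
            have t := wk.tie w h _ ht
            rcases (wk.tie w0 h0 _ ht0).2.2.2.2 w (he ▸ t.2.1) with h1 | h1
            · exact hw h1
            · have := (wk.tie w0 h0 _ ht0).2.2.2.1
              rw [← h1, ht] at this
              cases this
          split_ifs <;> first | (exfalso; omega) | ring
      · simp
    exact hw0 (by linarith)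
  obtain ⟨z0, z1, z2⟩ := root fo w0
  have n0 : sf P nu 0 ≠ sf P nu m := fun h =>
    nconst fun i hi => fl z0 (z1 ▸ h) i (by omega) (by omega)
  have nN : sf P nu (N - 1) ≠ sf P nu m := fun h =>
    nconst fun i hi => fr z0 (z2 ▸ h) i (by omega) (by omega)
  -- the maximal block around `m`
  have exb : ∃ j, m ≤ j ∧ sf P nu (j + 1) ≠ sf P nu m := by
    have : m ≠ N - 1 := fun h => nN (h ▸ rfl)
    exact ⟨N - 2, by omega, by rwa [show N - 2 + 1 = N - 1 by omega]⟩
  have exa : ∃ j, j < m ∧ sf P nu j ≠ sf P nu m := by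
    have : m ≠ 0 := fun h => n0 (h ▸ rfl)
    exact ⟨0, by omega, n0⟩
  obtain ⟨b, hb1, hb2, hb3⟩ : ∃ b, m ≤ b ∧ sf P nu (b + 1) ≠ sf P nu m ∧
      ∀ i, m ≤ i → i ≤ b → sf P nu i = sf P nu m := by
    refine ⟨Nat.find exb, (Nat.find_spec exb).1, (Nat.find_spec exb).2, fun i h1 h2 => ?_⟩
    rcases h1.eq_or_lt with rfl | h1
    · rfl
    · have := Nat.find_min exb (m := i - 1) (by omega)
      rw [show i - 1 + 1 = i by omega] at this
      by_contra hne
      exact this ⟨by omega, hne⟩
  obtain ⟨a, ha1, ha2, ha3⟩ : ∃ a, a < m ∧ sf P nu a ≠ sf P nu m ∧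
      ∀ i, a < i → i ≤ m → sf P nu i = sf P nu m := by
    obtain ⟨j, hj1, hj2⟩ := exa
    have hs := Nat.findGreatest_spec (P := fun j => j < m ∧ sf P nu j ≠ sf P nu m) hj1.le
      ⟨hj1, hj2⟩
    refine ⟨_, hs.1, hs.2, fun i h1 h2 => ?_⟩
    rcases h2.eq_or_lt with rfl | h3
    · rfl
    · by_contra hne
      exact Nat.findGreatest_is_greatest h1 h2 ⟨h3, hne⟩
  have blk : ∀ i, a < i → i ≤ b → sf P nu i = sf P nu m := by
    intro i h1 h2
    by_cases h3 : i ≤ m
    · exact ha3 i h1 h3
    · exact hb3 i (by omega) h2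
  obtain ⟨w, hw1, hw2⟩ := jump P nu b (by rw [blk b (by omega) le_rfl]; exact hb2)
  obtain ⟨w', hw1', hw2'⟩ := jump P nu a (by rw [blk (a + 1) (by omega) (by omega)]; exact ha2.symm)
  obtain ⟨h, ht⟩ := hP w hw2
  obtain ⟨h', ht'⟩ := hP w' hw2'
  obtain ⟨y, hy1, hy2, hy3, -⟩ := owner wk ht' (sd w)
  have hw3 := (wk.tie w h _ ht).2.1
  have i1 := own_in wk fo ht hw3
  have i2 := own_in wk fo ht' hy3
  rcases lt_trichotomy (rk y) (rk w) with h3 | h3 | h3
  · have := fo.gap w y hy2 h3 _ (Or.inl hy3)
    exact hb2 (fl w (blk _ (by omega) (by omega)) _ (by omega) (by omega))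
  · have hyw := fo.inj h3
    subst hyw
    rcases hy1 with rfl | rfl
    · omega
    · have := (wk.tie w' y _ ht').2.2.2.1
      rw [ht] at this
      cases this
  · have := fo.gap y w hy2.symm h3 _ (Or.inl hw3)
    exact ha2 (fr y (blk _ (by omega) (by omega)) _ (by omega) (by omega))

/-- The dual weight of the wedge of `y`, as a functional on affine functions. -/
def om (X : ℕ → ℝ) (L R : O → ℕ) (lam : O × Bool → ℝ) (y : O) (φ : ℝ × ℝ) : ℝ :=
  lam (y, true) * ev φ (X (L y)) - lam (y, false) * ev φ (X (R y))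

open Classical in
/-- The weight of `y` minus the weights of its children. -/
noncomputable def gg (X : ℕ → ℝ) (L R : O → ℕ) (par : O → Option O) (lam : O × Bool → ℝ) (y : O)
    (φ : ℝ × ℝ) : ℝ :=
  om X L R lam y φ - ∑ c, if par c = some y then om X L R lam c φ else 0

theorem gg_lin (X : ℕ → ℝ) (lam : O × Bool → ℝ) (y : O) (φ : ℝ × ℝ) :
    gg X L R par lam y φ =
      φ.1 * gg X L R par lam y (1, 0) + φ.2 * gg X L R par lam y (0, 1) := by
  have h : ∀ c, om X L R lam c φ = φ.1 * om X L R lam c (1, 0) + φ.2 * om X L R lam c (0, 1) := by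
    intro c
    simp only [om, ev]
    ring
  simp only [gg]
  rw [h y, mul_sub, mul_sub, Finset.mul_sum, Finset.mul_sum]
  have : ∀ a b c d e : ℝ, e = c + d → a + b - e = a - c + (b - d) := by
    intro a b c d e he
    rw [he]
    ring
  apply this
  rw [← Finset.sum_add_distrib]
  refine Finset.sum_congr rfl fun c _ => ?_
  split_ifs
  · exact h c
  · ring

theorem gg_zero (X : ℕ → ℝ) (lam : O × Bool → ℝ) (y : O) : gg X L R par lam y 0 = 0 := by
  rw [gg_lin]
  simp

omit [Fintype O] in
theorem sg_ne (b : Bool) : sg b ≠ 0 := by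
  cases b <;> simp [sg]

omit [Fintype O] in
theorem sg_neg {a b : Bool} (h : a ≠ b) : sg a = -sg b := by
  cases a <;> cases b <;> simp_all [sg]

/-- The values of the nesting inequalities. -/
def Am (X : ℕ → ℝ) (sd : O → Bool) (L R : O → ℕ) (par : O → Option O) :
    (O → ℝ × ℝ) →ₗ[ℝ] (O × Bool → ℝ) where
  toFun ψ i :=
    if i.2 then sg (sd i.1) * (ev (ψ i.1) (X (L i.1)) - ev ((par i.1).elim 0 ψ) (X (L i.1)))
    else -(sg (sd i.1) * (ev (ψ i.1) (X (R i.1)) - ev ((par i.1).elim 0 ψ) (X (R i.1))))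
  map_add' ψ χ := by
    funext ⟨o, b⟩
    cases b <;> cases hp : par o <;> simp [ev, hp] <;> ring
  map_smul' c ψ := by
    funext ⟨o, b⟩
    cases b <;> cases hp : par o <;> simp [ev, hp] <;> ring

/-- The solutions of the collinearity equations. -/
def Kr (X : ℕ → ℝ) (tie : O → Option (O × ℕ)) : Submodule ℝ (O → ℝ × ℝ) where
  carrier := {ψ | ∀ z h p, tie z = some (h, p) → ev (ψ z) (X p) = ev (ψ h) (X p)}
  add_mem' := by
    intro ψ χ h1 h2 z h p ht
    have a := h1 z h p ht
    have b := h2 z h p ht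
    simp only [ev, Pi.add_apply, Prod.fst_add, Prod.snd_add] at a b ⊢
    linarith
  zero_mem' := by
    intro z h p _
    rfl
  smul_mem' := by
    intro c ψ h1 z h p ht
    have a := h1 z h p ht
    simp only [ev, Pi.smul_apply, Prod.smul_fst, Prod.smul_snd, smul_eq_mul] at a ⊢
    linear_combination c * a

theorem dual_eq (fo : Fo N sd At rk L R par) (X : ℕ → ℝ) (lam : O × Bool → ℝ)
    (ψ : O → ℝ × ℝ) :
    ∑ i, lam i * Am X sd L R par ψ i = ∑ y, sg (sd y) * gg X L R par lam y (ψ y) := by
  classical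
  have e1 : ∑ i, lam i * Am X sd L R par ψ i =
      ∑ y, (sg (sd y) * om X L R lam y (ψ y) -
        sg (sd y) * om X L R lam y ((par y).elim 0 ψ)) := by
    rw [Fintype.sum_prod_type]
    refine Finset.sum_congr rfl fun y _ => ?_
    rw [Fintype.sum_bool]
    simp only [Am, om, LinearMap.coe_mk, AddHom.coe_mk, if_true, Bool.false_eq_true, if_false]
    ring
  have e2 : ∑ y, sg (sd y) * om X L R lam y ((par y).elim 0 ψ) =
      ∑ y, sg (sd y) * ∑ c, if par c = some y then om X L R lam c (ψ y) else 0 := by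
    simp only [Finset.mul_sum]
    rw [Finset.sum_comm]
    refine Finset.sum_congr rfl fun c _ => ?_
    cases hp : par c with
    | none => simp [om, ev]
    | some z =>
      rw [Finset.sum_eq_single z]
      · rw [if_pos rfl, (fo.some c z hp).1]
        rfl
      · intro y _ hy
        rw [if_neg (fun h => hy (Option.some.inj h).symm), mul_zero]
      · simp
  rw [e1, Finset.sum_sub_distrib, e2, ← Finset.sum_sub_distrib]
  refine Finset.sum_congr rfl fun y _ => ?_
  simp only [gg]
  ring

/-- The sum over a subtree telescopes. -/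
theorem sum_sub (fo : Fo N sd At rk L R par) (X : ℕ → ℝ) (lam : O × Bool → ℝ) (z : O)
    (φ : ℝ × ℝ) [DecidablePred (Sub sd rk L R z)] :
    ∑ y, (if Sub sd rk L R z y then gg X L R par lam y φ else 0) = om X L R lam z φ := by
  classical
  have e1 : ∀ y, (if Sub sd rk L R z y then gg X L R par lam y φ else 0) =
      (if Sub sd rk L R z y then om X L R lam y φ else 0) -
        ∑ c, if par c = some y ∧ Sub sd rk L R z y then om X L R lam c φ else 0 := by
    intro y
    by_cases h : Sub sd rk L R z y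
    · simp only [h, if_true, and_true, gg]
    · simp [h]
  rw [Finset.sum_congr rfl fun y _ => e1 y, Finset.sum_sub_distrib, Finset.sum_comm,
    ← Finset.sum_sub_distrib, Finset.sum_eq_single z]
  · rw [if_pos ⟨rfl, le_rfl, le_rfl, le_rfl⟩, Finset.sum_eq_zero, sub_zero]
    intro y _
    exact if_neg fun h => ((sub_par fo z z).1 ⟨y, h⟩).2 rfl
  · intro c _ hc
    by_cases h : Sub sd rk L R z c
    · obtain ⟨y, hy⟩ := (sub_par fo z c).2 ⟨h, hc⟩
      rw [if_pos h, Finset.sum_eq_single y, if_pos hy, sub_self]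
      · intro y' _ hy'
        exact if_neg fun h' => hy' (Option.some.inj (h'.1.symm.trans hy.1))
      · simp
    · rw [if_neg h, Finset.sum_eq_zero, sub_zero]
      intro y _
      exact if_neg fun h' => h ((sub_par fo z c).1 ⟨y, h'⟩).1
  · simp

/-- The weight of an object minus the weights of its children sits at its tied points. -/
theorem gg_eq [DecidableEq O] (wk : Wk N sd At tie) (X : ℕ → ℝ) (lam : O × Bool → ℝ)
    (h0 : ∀ ψ ∈ Kr X tie, ∑ y, sg (sd y) * gg X L R par lam y (ψ y) = 0)
    (P : O → ℕ) (H : O → O) (nu : O → ℝ) (hP : ∀ w h p, tie w = some (h, p) → H w = h ∧ P w = p)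
    (hn0 : ∀ w, tie w = none → nu w = 0)
    (hn1 : ∀ w, tie w ≠ none → nu w = gg X L R par lam w (1, 0)) (y : O) (φ : ℝ × ℝ) :
    gg X L R par lam y φ = ∑ w, if y = w ∨ y = H w then nu w * ev φ (X (P w)) else 0 := by
  classical
  cases ht : tie y with
  | some x =>
    obtain ⟨h, p⟩ := x
    have hy : tie y ≠ none := by simp [ht]
    have hK : (fun w => if w = y then ((-X p, 1) : ℝ × ℝ) else 0) ∈ Kr X tie := by
      intro z h' p' ht'
      have h1 : h' ≠ y := fun e => hy (e ▸ (wk.tie z h' p' ht').2.2.2.1)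
      by_cases h2 : z = y
      · subst h2
        rw [ht] at ht'
        cases ht'
        simp [h1, ev]
      · simp [h1, h2]
    have h1 := h0 _ hK
    rw [Finset.sum_eq_single y, if_pos rfl, gg_lin] at h1
    · have h2 := (mul_eq_zero.1 h1).resolve_left (sg_ne _)
      rw [Finset.sum_eq_single y, if_pos (Or.inl rfl), hn1 y hy, (hP y h p ht).2, gg_lin]
      · simp only [ev] at h2 ⊢
        linear_combination φ.2 * h2
      · intro w _ hw
        cases hw' : tie w with
        | none => simp [hn0 w hw']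
        | some x =>
          obtain ⟨h', p'⟩ := x
          refine if_neg ?_
          rintro (e | e)
          · exact hw e.symm
          · rw [(hP w h' p' hw').1] at e
            exact hy (e ▸ (wk.tie w h' p' hw').2.2.2.1)
      · simp
    · intro w _ hw
      rw [if_neg hw, gg_zero, mul_zero]
    · simp
  | none =>
    have hK : (fun w => if w = y then φ else if tie w = some (y, P w) then
        ((ev φ (X (P w)), 0) : ℝ × ℝ) else 0) ∈ Kr X tie := by
      intro z h' p' ht'
      have h1 : z ≠ y := by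
        rintro rfl
        rw [ht] at ht'
        cases ht'
      have h2 := (wk.tie z h' p' ht').2.2.2.1
      have h3 := (hP z h' p' ht').2
      by_cases h4 : h' = y
      · subst h4
        simp [h1, ht', h3, ev]
      · simp [h1, h4, ht', h2]
    have h1 := h0 _ hK
    rw [← Finset.add_sum_erase _ _ (Finset.mem_univ y), if_pos rfl] at h1
    rw [← Finset.add_sum_erase _ _ (Finset.mem_univ y), if_pos (Or.inl rfl), hn0 y ht, zero_mul,
      zero_add]
    refine mul_left_cancel₀ (sg_ne (sd y)) ?_
    rw [eq_neg_of_add_eq_zero_left h1, Finset.mul_sum, ← Finset.sum_neg_distrib]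
    refine Finset.sum_congr rfl fun w hw => ?_
    have hw' := Finset.ne_of_mem_erase hw
    rw [if_neg hw']
    cases ht' : tie w with
    | none => simp [hn0 w ht', gg_zero]
    | some x =>
      obtain ⟨h', p'⟩ := x
      obtain ⟨e1, e2⟩ := hP w h' p' ht'
      by_cases h4 : h' = y
      · subst h4
        rw [if_pos (by rw [e2]), if_pos (Or.inr e1.symm), hn1 w (by simp [ht']), gg_lin,
          sg_neg (wk.tie w h' p' ht').1]
        ring
      · rw [if_neg (by simp [h4]), if_neg, gg_zero]
        · simp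
        · rintro (e | e)
          · exact hw' e.symm
          · exact h4 (e1.symm.trans e.symm)

end Dual

end Gor

open Gor in
theorem gor : StmtGOR := by
  classical
  intro O _ N sd At tie rk L R par X wk fo hX
  by_contra hno
  obtain ⟨lam, l0, ⟨i0, l1⟩, l2⟩ := gordan ((Kr X tie).map (Am X sd L R par)) (by
    rintro x ⟨ψ, hψ, rfl⟩ hpos
    refine hno ⟨ψ, fun o => hpos (o, true), fun o => ?_, hψ⟩
    exact neg_pos.1 (hpos (o, false)))
  have h0 : ∀ ψ ∈ Kr X tie, ∑ y, sg (sd y) * gg X L R par lam y (ψ y) = 0 := by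
    intro ψ hψ
    rw [← dual_eq fo]
    exact l2 _ ⟨ψ, hψ, rfl⟩
  let P : O → ℕ := fun w => (tie w).elim 0 Prod.snd
  let H : O → O := fun w => (tie w).elim w Prod.fst
  let nu : O → ℝ := fun w => if tie w = none then 0 else gg X L R par lam w (1, 0)
  have hP : ∀ w h p, tie w = some (h, p) → H w = h ∧ P w = p := by
    intro w h p ht
    simp [H, P, ht]
  have hn0 : ∀ w, tie w = none → nu w = 0 := fun w hw => if_pos hw
  have hn1 : ∀ w, tie w ≠ none → nu w = gg X L R par lam w (1, 0) := fun w hw => if_neg hw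
  have key : ∀ z φ, om X L R lam z φ =
      ∑ w, if L z < P w ∧ P w < R z then nu w * ev φ (X (P w)) else 0 := by
    intro z φ
    rw [← sum_sub fo X lam z φ]
    have e1 : ∀ y, (if Sub sd rk L R z y then gg X L R par lam y φ else 0) =
        ∑ w, if Sub sd rk L R z y ∧ (y = w ∨ y = H w) then nu w * ev φ (X (P w)) else 0 := by
      intro y
      by_cases h : Sub sd rk L R z y
      · simp only [h, if_true, true_and]
        exact gg_eq wk X lam h0 P H nu hP hn0 hn1 y φ
      · simp [h]
    rw [Finset.sum_congr rfl fun y _ => e1 y, Finset.sum_comm]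
    refine Finset.sum_congr rfl fun w _ => ?_
    cases ht : tie w with
    | none => simp [hn0 w ht]
    | some x =>
      obtain ⟨h, p⟩ := x
      obtain ⟨e2, e3⟩ := hP w h p ht
      obtain ⟨y, y1, y2, y3, y4⟩ := owner wk ht (sd z)
      rw [Finset.sum_eq_single y, e2, e3]
      · have := own_sub wk fo ht y3 y2
        by_cases h5 : L z < p ∧ p < R z
        · rw [if_pos h5, if_pos ⟨this.2 h5, y1⟩]
        · rw [if_neg h5, if_neg fun h6 => h5 (this.1 h6.1)]
      · intro y' _ hy'
        exact if_neg fun h6 => hy' (y4 y' (e2 ▸ h6.2) h6.1.1)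
      · simp
  have kl : ∀ z, ∑ w, (if L z < P w ∧ P w < R z then nu w * (X (R z) - X (P w)) else 0) =
      lam (z, true) * (X (R z) - X (L z)) := by
    intro z
    have := key z (X (R z), -1)
    simp only [om, ev] at this
    rw [show lam (z, true) * (X (R z) - X (L z)) = lam (z, true) * (X (R z) + -1 * X (L z)) -
      lam (z, false) * (X (R z) + -1 * X (R z)) by ring, this]
    refine Finset.sum_congr rfl fun w _ => ?_
    split_ifs <;> ring
  have kr : ∀ z, ∑ w, (if L z < P w ∧ P w < R z then nu w * (X (P w) - X (L z)) else 0) =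
      -(lam (z, false) * (X (R z) - X (L z))) := by
    intro z
    have := key z (-X (L z), 1)
    simp only [om, ev] at this
    rw [show -(lam (z, false) * (X (R z) - X (L z))) = lam (z, true) * (-X (L z) + 1 * X (L z)) -
      lam (z, false) * (-X (L z) + 1 * X (R z)) by ring, this]
    refine Finset.sum_congr rfl fun w _ => ?_
    split_ifs <;> ring
  have hd : ∀ z, 0 < X (R z) - X (L z) := fun z => sub_pos.2 (hX (fo.lr z).1)
  have hv := vanish wk fo hX P nu
    (fun w hw => by
      cases ht : tie w with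
      | none => exact absurd (hn0 w ht) hw
      | some x => exact ⟨x.1, by rw [(hP w x.1 x.2 ht).2]⟩)
    (fun z => by rw [kl]; exact mul_nonneg (l0 _) (hd z).le)
    (fun z => by rw [kr]; exact neg_nonpos.2 (mul_nonneg (l0 _) (hd z).le))
  obtain ⟨z, b⟩ := i0
  have a1 := kl z
  have a2 := kr z
  simp only [hv, zero_mul, ite_self, Finset.sum_const_zero] at a1 a2
  cases b
  · exact l1 ((mul_eq_zero.1 (neg_eq_zero.1 a2.symm)).resolve_right (hd z).ne')
  · exact l1 ((mul_eq_zero.1 a1.symm).resolve_right (hd z).ne')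

end Pool.Agent.MP_856573_co.H74
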